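import Pool.Agent.H351R3.Gel.Density

/-!
# Gel'fond's conjecture for one exponential and one logarithm, in bounded degree: all exponents

For every degree bound `D`, almost all positive integers `n` are such that for all nonzero
algebraic numbers `α` the numbers `e^α` and `log n` satisfy no nonzero polynomial relation of total
degree `≤ D` with algebraic coefficients.  The same holds for some subset sum of any sufficiently
many linearly independent logarithms of algebraic numbers.

The proof: the additive relation `x_∅ + x_{S ∪ T} = x_S + x_T` in a cube of logarithms, and the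
automorphisms of the complex numbers which multiply every `e^γ` (`γ` algebraic) by `χ(γ)` for a
character `χ` of the additive group of algebraic numbers, show that the exponents which belong to
the vertices of the cube are rational multiples of each other, of bounded height (`far`, `conn`,
`cube`); for a single exponential there are no exceptional cubes (`cube_free`).
-/

set_option autoImplicit false

namespace Pool.Agent.Results.MP_c82530_nt.AllExponents

open Pool.Agent.H351R3.Gel Pool.Agent.H297R2

/-- `u` and `x` satisfy no nonzero polynomial relation of total degree at most `D` with algebraic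
coefficients. -/
def NoRelation (D : ℕ) (u x : ℂ) : Prop :=
  ∀ P : MvPolynomial (Fin 2) (algebraicClosure ℚ ℂ), P.totalDegree ≤ D →
    MvPolynomial.aeval ![u, x] P = 0 → P = 0

open Classical in
/-- **Main result.** -/
theorem result (D : ℕ) :
    (∃ r : ℕ, ∀ l : Fin (r + 1) → ℂ, (∀ i, IsAlgebraic ℚ (Complex.exp (l i))) →
      LinearIndependent ℚ l → ∃ S : Finset (Fin r), ∀ α : ℂ, IsAlgebraic ℚ α → α ≠ 0 →
        NoRelation D (Complex.exp α) (l 0 + ∑ i ∈ S, l i.succ)) ∧
    (∀ ε : ℝ, 0 < ε → ∃ x₀ : ℕ, ∀ x ≥ x₀,
      (((Finset.Icc 1 x).filter fun n : ℕ => ∃ α : ℂ, IsAlgebraic ℚ α ∧ α ≠ 0 ∧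
        ¬ NoRelation D (Complex.exp α) (Real.log n : ℂ)).card : ℝ) ≤ ε * x) := by
  constructor
  · obtain ⟨r, _, hr⟩ := cube D
    refine ⟨r, fun l hl hli => ?_⟩
    have hsum : ∀ (c : ℚ), c ≠ 0 → ∀ S : Finset (Fin r),
        (c : ℂ) * l 0 + ∑ i ∈ S, l i.succ ≠ 0 := by
      intro c hc S h
      rw [Fintype.linearIndependent_iff] at hli
      have h1 := hli (Fin.cons c (fun i : Fin r => if i ∈ S then 1 else 0)) (by
        rw [Fin.sum_univ_succ]
        simp only [Fin.cons_zero, Fin.cons_succ, ite_smul, one_smul, zero_smul,
          Finset.sum_ite_mem, Finset.univ_inter]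
        rw [← h, Algebra.smul_def]
        rfl) 0
      exact hc h1
    obtain ⟨S, hS⟩ := hr (l 0) (fun i => l i.succ) (hl 0) (fun i => hl _)
      (hli.comp _ (Fin.succ_injective r)) (fun S => by
        have := hsum 1 one_ne_zero S
        simpa using this) (fun S => by
        have := hsum 2 two_ne_zero S
        intro h
        apply this
        push_cast
        rw [← h]
        ring)
    refine ⟨S, fun α h1 h2 P hPD hP => ?_⟩
    by_contra hP0
    exact hS α h1 h2 (degLe_of_rel P hP0 hPD hP)
  · intro ε hε
    obtain ⟨x₀, hx₀⟩ := density D ε hε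
    refine ⟨x₀, fun x hx => hx₀ x hx _ ?_ ?_⟩
    · intro n hn
      rw [Finset.mem_filter, Finset.mem_Icc] at hn
      rw [Finset.mem_Ioc]
      omega
    · intro n hn
      rw [Finset.mem_filter] at hn
      obtain ⟨_, α, h1, h2, h3⟩ := hn
      unfold NoRelation at h3
      push Not at h3
      obtain ⟨P, hPD, hP, hP0⟩ := h3
      obtain ⟨h4, h5⟩ := degLe_of_rel P hP0 hPD hP
      exact ⟨α, h1, h2, h4, h5⟩

end Pool.Agent.Results.MP_c82530_nt.AllExponents
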